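import Pool.Agent.Helper86.LP.Defs
import Pool.Agent.Helper67.MM.Asm8
import Pool.Agent.Helper44.CM.Final

open MeasureTheory

namespace Pool.Agent.Results.MP_10bc19_gt.AllExponents

open Pool.Agent.Helper86.LP

/-- For every real `p > 1`, every `n` and every linear subspace `H` of `ℝⁿ`, the section function
`t ↦ |D_t B_p^n ∩ H|` is positive and log-concave jointly in `(t_1, …, t_n)`. -/
theorem result (p : ℝ) (hp : 1 < p) (n : ℕ) (H : Submodule ℝ (EuclideanSpace ℝ (Fin n))) :
    IsLogConcave (sectionVolume p H) :=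
  Pool.Agent.Helper67.MM.asm8 CM.final_STAR p hp.le n H

end Pool.Agent.Results.MP_10bc19_gt.AllExponents
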